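import Mathlib
import Pool.Agent.Y862.GM.Stm

/-!
Squarefree numbers in windows, first moment.
-/

set_option autoImplicit false

namespace Pool.Agent.Y968.GM

open Finset Filter Topology Pool.Agent.Y862.GM

/-- the square of the local factor -/
noncomputable def sq (p n : ℕ) : ℝ := if p ^ 2 ∣ n then 0 else 1

theorem sq_nonneg' (p n : ℕ) : 0 ≤ sq p n := by
  unfold sq
  split_ifs <;> norm_num

theorem sq_le (p n : ℕ) : sq p n ≤ 1 := by
  unfold sq
  split_ifs <;> norm_num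

theorem mu_sq (y n : ℕ) : mu y n ^ 2 = ∏ p ∈ pr y, sq p n := by
  unfold mu
  rw [← prod_pow]
  refine prod_congr rfl fun p _ => ?_
  unfold muP sq
  split_ifs <;> norm_num

theorem prod_nonneg' (S : Finset ℕ) (n : ℕ) : 0 ≤ ∏ p ∈ S, sq p n :=
  prod_nonneg fun p _ => sq_nonneg' p n

theorem prod_le' (S : Finset ℕ) (n : ℕ) : ∏ p ∈ S, sq p n ≤ 1 :=
  prod_le_one (fun p _ => sq_nonneg' p n) fun p _ => sq_le p n

theorem one_sub (S : Finset ℕ) (n : ℕ) : 1 - ∏ p ∈ S, sq p n ≤ ∑ p ∈ S, (1 - sq p n) := by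
  induction S using Finset.induction_on with
  | empty => simp
  | insert p S hp ih =>
    rw [prod_insert hp, sum_insert hp]
    have h1 := prod_le' S n
    have h2 := sq_le p n
    have h3 := sq_nonneg' p n
    nlinarith

theorem pr_mono {w y : ℕ} (h : w ≤ y) : pr w ⊆ pr y := by
  intro p hp
  unfold pr at hp ⊢
  rw [mem_filter, mem_range] at hp ⊢
  exact ⟨by omega, hp.2⟩

theorem diff (w y n : ℕ) (h : w ≤ y) :
    |mu y n ^ 2 - mu w n ^ 2| ≤ ∑ p ∈ pr y \ pr w, (1 - sq p n) := by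
  rw [mu_sq, mu_sq, ← prod_sdiff (pr_mono h)]
  have h1 := one_sub (pr y \ pr w) n
  have h2 := prod_le' (pr y \ pr w) n
  have h3 := prod_le' (pr w) n
  have h4 := prod_nonneg' (pr w) n
  rw [abs_sub_comm, abs_of_nonneg (by nlinarith)]
  nlinarith

theorem one_sub_sq (p n : ℕ) : 1 - sq p n = if p ^ 2 ∣ n then 1 else 0 := by
  unfold sq
  split_ifs <;> norm_num

theorem count (p Z Y h : ℕ) (hp : 0 < p) :
    ∑ x ∈ Ioc Z (Z + Y), (1 - sq p (x + h)) ≤ (Y : ℝ) / (p : ℝ) ^ 2 + 1 := by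
  simp only [one_sub_sq]
  rw [sum_ite, sum_const_zero, add_zero, sum_const, nsmul_eq_mul, mul_one]
  have hq : 0 < p ^ 2 := by positivity
  have h1 : ((Ioc Z (Z + Y)).filter (fun x => p ^ 2 ∣ x + h)).card ≤
      (Ioc ((Z + h) / p ^ 2) ((Z + h + Y) / p ^ 2)).card := by
    refine card_le_card_of_injOn (fun x => (x + h) / p ^ 2) ?_ ?_
    · intro x hx
      simp only [coe_filter, mem_Ioc, Set.mem_ofPred_eq] at hx
      obtain ⟨⟨h2, h3⟩, c, h4⟩ := hx
      simp only [coe_Ioc, Set.mem_Ioc]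
      rw [h4, Nat.mul_div_cancel_left _ hq]
      constructor
      · rw [Nat.div_lt_iff_lt_mul hq]
        nlinarith
      · rw [Nat.le_div_iff_mul_le hq]
        nlinarith
    · intro x hx x' hx' hxx
      simp only [coe_filter, mem_Ioc, Set.mem_ofPred_eq] at hx hx'
      obtain ⟨-, c, h4⟩ := hx
      obtain ⟨-, c', h4'⟩ := hx'
      simp only [h4, h4', Nat.mul_div_cancel_left _ hq] at hxx
      rw [hxx] at h4
      omega
  rw [Nat.card_Ioc, Nat.add_div hq] at h1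
  have h2 : ((Ioc Z (Z + Y)).filter (fun x => p ^ 2 ∣ x + h)).card ≤ Y / p ^ 2 + 1 := by
    refine h1.trans ?_
    generalize (Z + h) / p ^ 2 = u
    generalize Y / p ^ 2 = v
    split_ifs <;> omega
  have h3 : ((((Ioc Z (Z + Y)).filter (fun x => p ^ 2 ∣ x + h)).card : ℕ) : ℝ) ≤
      ((Y / p ^ 2 + 1 : ℕ) : ℝ) := by exact_mod_cast h2
  refine h3.trans ?_
  push_cast
  have h4 : ((Y / p ^ 2 : ℕ) : ℝ) ≤ (Y : ℝ) / ((p ^ 2 : ℕ) : ℝ) := Nat.cast_div_le
  push_cast at h4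
  linarith

theorem shift (t : ℕ → ℝ) (x b : ℕ) : ∑ n ∈ Ioc x (x + b), t n = ∑ h ∈ Ioc 0 b, t (x + h) := by
  refine sum_nbij' (fun n => n - x) (fun h => x + h) ?_ ?_ ?_ ?_ ?_
  · intro n hn
    rw [mem_Ioc] at hn ⊢
    omega
  · intro n hn
    rw [mem_Ioc] at hn ⊢
    omega
  · intro n hn
    rw [mem_Ioc] at hn
    omega
  · intro n hn
    omega
  · intro n hn
    rw [mem_Ioc] at hn
    congr 1
    omega

theorem tail (w y : ℕ) (hw : 0 < w) (hwy : w ≤ y) (Y : ℕ) :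
    ∑ p ∈ pr y \ pr w, ((Y : ℝ) / (p : ℝ) ^ 2 + 1) ≤ (Y : ℝ) / w + y := by
  have hsub : pr y \ pr w ⊆ Ioc w y := by
    intro p hp
    rw [Finset.mem_sdiff] at hp
    unfold pr at hp
    simp only [mem_filter, mem_range] at hp
    rw [mem_Ioc]
    obtain ⟨⟨h1, h2⟩, h3⟩ := hp
    have : ¬ p < w + 1 := fun h => h3 ⟨h, h2⟩
    omega
  have h1 : ∑ p ∈ pr y \ pr w, ((Y : ℝ) / (p : ℝ) ^ 2 + 1) ≤
      ∑ p ∈ Ioc w y, ((Y : ℝ) / (p : ℝ) ^ 2 + 1) :=
    sum_le_sum_of_subset_of_nonneg hsub fun p _ _ => by positivity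
  refine h1.trans ?_
  rw [sum_add_distrib, sum_const, Nat.card_Ioc, nsmul_eq_mul, mul_one]
  have h2 := sum_Ioc_inv_sq_le_sub (α := ℝ) hw.ne' hwy
  have h3 : ∑ p ∈ Ioc w y, (Y : ℝ) / (p : ℝ) ^ 2 = Y * ∑ p ∈ Ioc w y, ((p : ℝ) ^ 2)⁻¹ := by
    rw [mul_sum]
    exact sum_congr rfl fun p _ => div_eq_mul_inv _ _
  have h4 : ((y - w : ℕ) : ℝ) ≤ y := by exact_mod_cast Nat.sub_le y w
  have h5 : (0 : ℝ) ≤ (y : ℝ)⁻¹ := by positivity
  have h6 : (Y : ℝ) * ∑ p ∈ Ioc w y, ((p : ℝ) ^ 2)⁻¹ ≤ Y * (w : ℝ)⁻¹ :=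
    mul_le_mul_of_nonneg_left (by linarith) (Nat.cast_nonneg Y)
  rw [h3, div_eq_mul_inv]
  linarith

theorem mean (p : ℕ) (hp : p.Prime) : (∑ n ∈ range (p ^ 2), sq p n) / (p : ℝ) ^ 2 =
    1 - 1 / (p : ℝ) ^ 2 := by
  have hp0 : (p : ℝ) ≠ 0 := by exact_mod_cast hp.ne_zero
  have h1 : ∑ n ∈ range (p ^ 2), sq p n = (p : ℝ) ^ 2 - 1 := by
    have h2 : ∀ n ∈ range (p ^ 2), sq p n = 1 - if n = 0 then 1 else 0 := by
      intro n hn
      rw [mem_range] at hn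
      unfold sq
      by_cases h : n = 0
      · simp [h]
      · have : ¬ p ^ 2 ∣ n := fun h' => absurd (Nat.le_of_dvd (Nat.pos_of_ne_zero h) h') (by omega)
        simp [h, this]
    rw [sum_congr rfl h2, sum_sub_distrib, sum_const, card_range, sum_ite_eq', if_pos, nsmul_eq_mul,
      mul_one]
    · push_cast
      rfl
    · rw [mem_range]
      exact pow_pos hp.pos 2
  rw [h1]
  field_simp

/-- the density -/
noncomputable def cc (w : ℕ) : ℝ := ∏ p ∈ pr w, (1 - 1 / (p : ℝ) ^ 2)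

theorem cc_tendsto : Tendsto cc atTop (𝓝 (6 / Real.pi ^ 2)) := by
  have h1 := riemannZeta_eulerProduct (s := 2) (by norm_num)
  have h2 : Tendsto (fun n : ℕ => (∏ p ∈ Nat.primesBelow n, (1 - 1 / (p : ℝ) ^ 2))⁻¹) atTop
      (𝓝 (Real.pi ^ 2 / 6)) := by
    have h3 : Tendsto (fun n : ℕ => (((∏ p ∈ Nat.primesBelow n, (1 - 1 / (p : ℝ) ^ 2))⁻¹ : ℝ) : ℂ))
        atTop (𝓝 ((Real.pi ^ 2 / 6 : ℝ) : ℂ)) := by
      rw [riemannZeta_two] at h1
      have e : ((Real.pi ^ 2 / 6 : ℝ) : ℂ) = (Real.pi : ℂ) ^ 2 / 6 := by push_cast; rfl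
      rw [e]
      refine h1.congr fun n => ?_
      push_cast
      rw [prod_inv_distrib]
      congr 1
      refine prod_congr rfl fun p _ => ?_
      rw [Complex.cpow_neg]
      norm_num
    exact_mod_cast (Complex.continuous_re.tendsto _).comp h3
  have h4 : Tendsto (fun n : ℕ => ∏ p ∈ Nat.primesBelow n, (1 - 1 / (p : ℝ) ^ 2)) atTop
      (𝓝 (6 / Real.pi ^ 2)) := by
    have h5 := h2.inv₀ (by positivity)
    simp only [inv_inv, inv_div] at h5
    exact h5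
  exact h4.comp (tendsto_add_atTop_nat 1)

/-- the first moment of the squarefree numbers in windows -/
theorem t_SQ (h : S_EQUI) : S_SQ := by
  intro ε hε
  obtain ⟨w1, hw1⟩ := (Metric.tendsto_atTop.1 cc_tendsto) (ε / 4) (by positivity)
  obtain ⟨w2, hw2⟩ := exists_nat_gt (4 / ε)
  obtain ⟨w, hw⟩ : ∃ w, w = max (max w1 w2) 1 := ⟨_, rfl⟩
  have hwpos : 0 < w := by rw [hw]; exact lt_of_lt_of_le one_pos (le_max_right _ _)
  have hwc : |cc w - 6 / Real.pi ^ 2| ≤ ε / 4 := by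
    have := hw1 w (by rw [hw]; exact (le_max_left _ _).trans (le_max_left _ _))
    rw [Real.dist_eq] at this
    exact this.le
  have hw4 : (1 : ℝ) / w ≤ ε / 4 := by
    have h1 : (w2 : ℝ) ≤ w := by
      exact_mod_cast (by rw [hw]; exact (le_max_right _ _).trans (le_max_left _ _) : w2 ≤ w)
    have h2 : 4 / ε ≤ w := by linarith
    rw [div_le_iff₀ hε] at h2
    rw [div_le_iff₀ (by exact_mod_cast hwpos)]
    linarith
  obtain ⟨M, hM⟩ : ∃ M : ℝ, M = 2 * 2 ^ (pr w).card * ∏ p ∈ pr w, (p : ℝ) ^ 2 := ⟨_, rfl⟩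
  have hM0 : 0 ≤ M := by rw [hM]; positivity
  obtain ⟨A1, hA1⟩ := exists_nat_ge (4 * M / ε)
  refine ⟨max (max w A1) (max w2 1), fun y b Z Y hy hb hY => ?_⟩
  have hwy : w ≤ y := ((le_max_left _ _).trans (le_max_left _ _)).trans hy
  have hA1b : A1 ≤ b := ((le_max_right _ _).trans (le_max_left _ _)).trans hb
  have hb1 : 1 ≤ b := ((le_max_right _ _).trans (le_max_right _ _)).trans hb
  have hb0 : (0 : ℝ) < b := by exact_mod_cast hb1
  have hMb : M / b ≤ ε / 4 := by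
    have h1 : (A1 : ℝ) ≤ b := by exact_mod_cast hA1b
    have h2 : 4 * M / ε ≤ b := by linarith
    rw [div_le_iff₀ hε] at h2
    rw [div_le_iff₀ hb0]
    linarith
  have hyY : (y : ℝ) ≤ ε / 4 * Y := by
    have h1 : w2 * y ≤ Y := (Nat.mul_le_mul_right y ((le_max_left w2 1).trans
      (le_max_right (max w A1) _))).trans hY
    have h2 : (w2 : ℝ) * y ≤ Y := by exact_mod_cast h1
    have h3 : 4 / ε * y ≤ Y := by
      have : 4 / ε * y ≤ w2 * y := mul_le_mul_of_nonneg_right hw2.le (Nat.cast_nonneg y)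
      linarith
    rw [div_mul_eq_mul_div, div_le_iff₀ hε] at h3
    linarith
  -- the window of a fixed level
  have hfix : ∀ x : ℕ, |(∑ n ∈ Ioc x (x + b), mu w n ^ 2) / b - cc w| ≤ M / b := by
    intro x
    have h1 := h (pr w) (fun p hp => (mem_filter.1 hp).2) sq
      (fun p _ n => by
        unfold sq
        simp only [Nat.dvd_add_left (dvd_refl (p ^ 2))])
      (fun p _ n => by
        rw [abs_of_nonneg (sq_nonneg' p n)]
        linarith [sq_le p n]) x b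
    have h2 : ∏ p ∈ pr w, ((∑ n ∈ range (p ^ 2), sq p n) / (p : ℝ) ^ 2) = cc w :=
      prod_congr rfl fun p hp => mean p (mem_filter.1 hp).2
    rw [h2, ← hM] at h1
    have h3 : (∑ n ∈ Ioc x (x + b), mu w n ^ 2) / b - cc w =
        (∑ n ∈ Ioc x (x + b), ∏ p ∈ pr w, sq p n - b * cc w) / b := by
      simp only [mu_sq]
      field_simp
    rw [h3, abs_div, abs_of_pos hb0]
    gcongr
  -- the difference of the levels
  have hdiff : ∀ x : ℕ, |(∑ n ∈ Ioc x (x + b), mu y n ^ 2) / b -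
      (∑ n ∈ Ioc x (x + b), mu w n ^ 2) / b| ≤
      (∑ h ∈ Ioc 0 b, ∑ p ∈ pr y \ pr w, (1 - sq p (x + h))) / b := by
    intro x
    rw [← sub_div, abs_div, abs_of_pos hb0, ← sum_sub_distrib,
      ← shift (fun n => ∑ p ∈ pr y \ pr w, (1 - sq p n)) x b]
    gcongr
    refine (abs_sum_le_sum_abs _ _).trans (sum_le_sum fun n _ => diff w y n hwy)
  have hsum : ∑ x ∈ Ioc Z (Z + Y), (∑ h ∈ Ioc 0 b, ∑ p ∈ pr y \ pr w, (1 - sq p (x + h))) / (b : ℝ) ≤
      Y / w + y := by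
    rw [← sum_div, sum_comm, div_le_iff₀ hb0]
    have h1 : ∀ h ∈ Ioc 0 b, ∑ x ∈ Ioc Z (Z + Y), ∑ p ∈ pr y \ pr w, (1 - sq p (x + h)) ≤
        (Y : ℝ) / w + y := by
      intro h _
      rw [sum_comm]
      refine (sum_le_sum fun p hp => count p Z Y h ?_).trans (tail w y hwpos hwy Y)
      exact (mem_filter.1 (Finset.mem_sdiff.1 hp).1).2.pos
    refine (sum_le_sum h1).trans ?_
    rw [sum_const, Nat.card_Ioc, nsmul_eq_mul, mul_comm]
    simp
  calc ∑ x ∈ Ioc Z (Z + Y), |(∑ n ∈ Ioc x (x + b), mu y n ^ 2) / b - 6 / Real.pi ^ 2|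
      ≤ ∑ x ∈ Ioc Z (Z + Y), ((∑ h ∈ Ioc 0 b, ∑ p ∈ pr y \ pr w, (1 - sq p (x + h))) / (b : ℝ) +
        (M / b + ε / 4)) := by
        refine sum_le_sum fun x _ => ?_
        have h1 := hdiff x
        have h2 := hfix x
        have h3 : (∑ n ∈ Ioc x (x + b), mu y n ^ 2) / b - 6 / Real.pi ^ 2 =
            ((∑ n ∈ Ioc x (x + b), mu y n ^ 2) / b - (∑ n ∈ Ioc x (x + b), mu w n ^ 2) / b) +
            (((∑ n ∈ Ioc x (x + b), mu w n ^ 2) / b - cc w) + (cc w - 6 / Real.pi ^ 2)) := by ring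
        rw [h3]
        refine (abs_add_le _ _).trans (add_le_add h1 ((abs_add_le _ _).trans (add_le_add h2 hwc)))
    _ ≤ Y / w + y + Y * (M / b + ε / 4) := by
        rw [sum_add_distrib, sum_const, Nat.card_Ioc, nsmul_eq_mul, Nat.add_sub_cancel_left]
        linarith
    _ ≤ ε * Y := by
        have hY0 : (0 : ℝ) ≤ Y := Nat.cast_nonneg Y
        have h1 : (Y : ℝ) / w ≤ ε / 4 * Y := by
          have := mul_le_mul_of_nonneg_left hw4 hY0
          rw [mul_one_div] at this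
          linarith
        have h2 : (Y : ℝ) * (M / b + ε / 4) ≤ Y * (ε / 4 + ε / 4) :=
          mul_le_mul_of_nonneg_left (by linarith) hY0
        linarith

end Pool.Agent.Y968.GM
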